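import Pool.Agent.Run7.h745.RV.Fin
import Pool.Agent.Run7.h547.RV.TR
import Pool.Agent.Run7.h646.RV.SEPSF
import Pool.Agent.Run7.h973.RV.SIMPLE
import Pool.Agent.Run7.h973.RV.TRP
import Pool.Agent.Run7.h298.RV.ACT

/-!
# MP_953b63_an, Q1: yes

There is a simple separable unital C*-algebra with exactly one tracial state and positive radius of
comparison with an action of `ℤ/2` which has the Rokhlin property.

Definitions used: `TracialState`, `QT`, `radComp` (with `CuntzBelow`, `QT.dimFn`, `RComparison`) in
`Pool.Agent.Run7.h745.Defs`; `StablyFinite`, `Action`, `RokhlinProperty` in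
`Pool.Agent.Run7.h745.RV.Defs`.

The algebra is a Villadsen algebra of the second kind on two copies of a product of projective spaces
(given as endomorphisms of bundles, i.e. equivariant functions on a product of spheres); the
evaluations of the connecting maps change the copy.
-/

set_option autoImplicit false

namespace Pool.Agent.Results.MP_953b63_an.RokhlinUniqueTrace

open Run7.h745 Run7.h745.RV

/-- There are a simple separable unital stably finite C*-algebra `A` with exactly one tracial state
and `rc A > 0` and an action of the group with two elements on `A` with the Rokhlin property. -/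
theorem result :
    ∃ (A : Type) (_ : CStarAlgebra A) (α : Action (Multiplicative (ZMod 2)) A),
      IsSimpleRing A ∧ TopologicalSpace.SeparableSpace A ∧ StablyFinite A ∧
      (∃! _τ : TracialState A, True) ∧ 0 < radComp A ∧ RokhlinProperty α :=
  exists_system Run7.h973.RV.t_SIMPLE Run7.h646.RV.t_SEP Run7.h646.RV.t_SF Run7.h547.RV.t_UT
    Run7.h973.RV.t_TRP Run7.h547.RV.t_UNIQ Run7.h547.RV.t_EX Run7.h298.RV.t_ACT

end Pool.Agent.Results.MP_953b63_an.RokhlinUniqueTrace
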